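import Pool.Agent.R179.EvJ

open Pool.R179.LFC

namespace Pool.Agent.Results.MP_95e952_co.EvenDual

/-- There is a combinatorially two-orbit LFC tiling of Euclidean 3-space which is not isomorphic
to any two-orbit LFC tiling of Euclidean 3-space. (The tiling has one tile for each even vertex
of the hyperbolic honeycomb of type `{4,3,5}`; all its 2-faces are quadrilaterals.) -/
theorem result : ∃ 𝒯 : Set (Set (E 3)), IsLFC 𝒯 ∧ CombTwoOrbit 𝒯 ∧
    ∀ 𝒯' : Set (Set (E 3)), IsLFC 𝒯' → IsTwoOrbit 𝒯' → IsEmpty (FL 𝒯 ≃o FL 𝒯') :=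
  Pool.R179.Ev.main2

end Pool.Agent.Results.MP_95e952_co.EvenDual
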